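import Mathlib
import Pool.Agent.Y166.LT.AllF

/-!
# The number of Manin components is not eventually constant

Let `S` be the tautological plane bundle on the Grassmannian `G (2, N)`, `N ≥ 7`, and let
`X = P (Sym ^ 3 S)` be the bundle whose points are the pairs of a plane `S` in `k ^ N` and a nonzero
element of `Sym ^ 3 S` up to a scalar: a projective variety of dimension `2 N - 1`, covered by affine
spaces, with `- K_X = O (N - 6, 4)` (part of the theorem), so that `X` is smooth and `- K_X` is ample,
in particular big and nef. A morphism from the projective line to `X` has the class `α = (e, d)`,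
where `e` is its degree with respect to the Plücker class `λ` and `d` its degree with respect to the
class `ν` of the coordinates of the element of `Sym ^ 3 S`, and `MorBi X e d` is the space of the
morphisms of class `(e, d)`.

The definition of breaking maps is the original one, in terms of the function field `K` of `Y` and of
its discrete valuations, with no unproved hypothesis: for a dominant generically finite morphism
`f : Y → X` the divisor `R = K_Y - f ^* K_X` is effective, so that `a (Y, f ^* L) ≤ 1 = a (X, L)` for
`L = - K_X`, and its support consists of the prime divisors of `Y` which are ramified over `X` or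
contracted. `Unram` are the other prime divisors, `KappaPos` says `κ (R) > 0`, and `FaceContr` that
`f_*` is not injective on the nef classes of curves `γ` of `Y` with `γ . R = 0`. (Birational `f` are
never breaking: then `R` is exceptional, `κ (R) = 0`, and `f_*` is injective on these classes.) In `BreakingL` all
morphisms which are not dominant are counted as breaking (in particular all those with
`a (Y, f ^* L) > 1`), singular `Y` are admitted, and in `AccL` the dominant map from `N` to `M` is not
required to be generically finite, so that `maninL` is contained in the set of the Manin components.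

In the classes `(e, d)` with `3 e + 5 ≤ 2 d` and `d + 1 ≤ 2 e` there are at least two Manin
components, and for `3 e ≤ d` the space of the morphisms is irreducible, so that there is at most one.
Therefore no pair `(τ, n)` has the required property. The last part of the theorem holds for all sets
`S e d` of components which contain `maninL`, so for the Manin components in any reading of the
definition.

Contributors: helper198, helper166 (definitions, statements, assembly), helper36, helper61,
helper76, helper168, helper211, helper215, helper361, helper406, helper442, helper467, helper473,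
helper518, helper536, helper550, helper762, helper776, helper794, helper841, helper846, helper896,
helper930 (lemmas).
-/

set_option autoImplicit false

namespace Pool.Agent.Results.MP_9a7843_ag.DisproofWeakFano

open Pool.Agent.Y166.GM (PP Rep IsProjVar)
open Pool.Agent.Y166.SM (MorBi)
open Pool.Agent.Y198.MC (XX nefX)
open Pool.Agent.Y166.LT

theorem result (k : Type) [Field k] [IsAlgClosed k] [CharZero k] (N : ℕ) (hN : 7 ≤ N) :
    -- `X` is a smooth Fano variety of dimension `2 N - 1`
    IsProjVar (XX k N) ∧ AntiCan (XX k N) (2 * N - 1) (N - 6) 4 ∧
    -- the nef cone of curves of `X`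
    nefX k N = {β | 0 ≤ β.1 ∧ 3 * β.1 ≤ 2 * β.2} ∧
    -- there are two Manin components
    (∀ e d : ℕ, 3 * e + 5 ≤ 2 * d → d + 1 ≤ 2 * e →
      2 ≤ (maninL (2 * N - 1) (XX k N) e d).encard) ∧
    -- there is at most one component
    (∀ e d : ℕ, 3 * e ≤ d → (irreducibleComponents (MorBi (XX k N) e d)).encard ≤ 1) ∧
    -- the number of the Manin components is not eventually constant
    ∀ S : (e d : ℕ) → Set (Set (MorBi (XX k N) e d)),
      (∀ e d, maninL (2 * N - 1) (XX k N) e d ⊆ S e d ∧
        S e d ⊆ irreducibleComponents (MorBi (XX k N) e d)) →
      ¬ ∃ (τ : ℤ × ℤ) (n : ℕ), ((τ.1 : ℝ), (τ.2 : ℝ)) ∈ nefX k N ∧ ∀ e d : ℕ,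
        (((e : ℝ) - τ.1, (d : ℝ) - τ.2) : ℝ × ℝ) ∈ nefX k N → (S e d).encard = n := by
  have hX := (Pool.Agent.Y215.MC.X.done k N (by omega)).1
  have hnef := Pool.Agent.Y473.MCN.done k N (by omega)
  have htwo : ∀ e d : ℕ, 3 * e + 5 ≤ 2 * d → d + 1 ≤ 2 * e →
      2 ≤ (maninL (2 * N - 1) (XX k N) e d).encard := fun e d h1 h2 => twoL (by omega) e d h1 h2
  have hone : ∀ e d : ℕ, 3 * e ≤ d →
      (irreducibleComponents (MorBi (XX k N) e d)).encard ≤ 1 := fun e d h =>
    Pool.Agent.Y198.MC.one (by omega) e d h _ subset_rfl
  refine ⟨hX, tFANO k N hN, hnef, htwo, hone, ?_⟩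
  rintro S hS ⟨τ, n, _, hn⟩
  obtain ⟨e, d, h1, h2, h3, h4⟩ := Pool.Agent.Y198.MC.exists_class τ
  obtain ⟨e', d', g1, g2, g3⟩ := Pool.Agent.Y198.MC.exists_class' τ
  have k1 := hn e d (by
    rw [hnef]
    exact ⟨h3, h4⟩)
  have k2 := hn e' d' (by
    rw [hnef]
    exact ⟨g2, g3⟩)
  have k3 := (htwo e d h1 h2).trans (Set.encard_le_encard (hS e d).1)
  have k4 := (Set.encard_le_encard (hS e' d').2).trans (hone e' d' g1)
  rw [k2] at k4
  rw [k1] at k3
  exact absurd (k3.trans k4) (by decide)

end Pool.Agent.Results.MP_9a7843_ag.DisproofWeakFano
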